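import Mathlib

/-!
# MP_c82530_nt, project UL (universal logarithms): two pieces of pure algebra
-/

set_option autoImplicit false

open Polynomial IntermediateField

namespace Pool.Agent.Lib.MP_c82530_nt.UL

/-- **(NL)** Let `D` be a derivation of a field `F` over a subfield `K` of characteristic zero,
`x ≠ 0` with `D x = x`, and `l` algebraic over `K(x)` with `D l = c ∈ K`. Then `c = 0`.

Proof. `x` is transcendental over `K`: otherwise, with `m` the minimal polynomial of `x` over `K`,
`0 = D (m(x)) = m'(x) * D x = m'(x) * x` (`Derivation.map_aeval`), but `m'(x) ≠ 0` (separable) and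
`x ≠ 0`.
Let `L = K(x)` and `P = Y^m + r Y^(m-1) + …` the minimal polynomial of `l` over `L`, `m ≥ 1`.
Applying `D` to `P(l) = 0` gives `P^D(l) + P'(l) * c = 0`, where `P^D` has the coefficients
`D (P.coeff i)`. These lie in `L` (`D` maps `K(x)` into itself: it maps `K` to `0` and `x` to `x`,
adjoin induction), `P^D` has degree `≤ m - 1` as `P` is monic, and so has `c P'`. So
`P^D + c P'` is a polynomial over `L` of degree `≤ m - 1` vanishing at `l`, hence zero; the
coefficient of `Y^(m-1)` gives `D r + m c = 0`. So `s = - r / m ∈ K(x)` satisfies `D s = c`.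
Write `s = f(x) / g(x)` with `f, g ∈ K[X]`, `g ≠ 0`
(`IntermediateField.mem_adjoin_simple_iff`). From `D (f(x)) = f'(x) x`, `D (g(x)) = g'(x) x` and
`D (s g(x)) = D (f(x))` we get `(f'(x) g(x) - f(x) g'(x)) x = c g(x)²`, so
`X (f' g - f g') = c g²` in `K[X]`, as `x` is transcendental. Let `f = g h + e` with
`deg e < deg g` (`EuclideanDomain`, `Polynomial.degree_mod_lt`). Then
`f' g - f g' = g² h' + (e' g - e g')`, so `g² (c - X h') = X (e' g - e g')`. The degree of the
right side is at most `deg e + deg g < 2 deg g` (if it is not zero), so `c - X h' = 0`, and the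
constant coefficient gives `c = 0`. -/
def NL : Prop := ∀ (K F : Type) [Field K] [Field F] [Algebra K F] [CharZero K]
  (D : Derivation K F F) (x l : F) (c : K), x ≠ 0 → D x = x →
  IsAlgebraic K⟮x⟯ l → D l = algebraMap K F c → c = 0

/-- **(GI)** If `v 1, …, v m` are linearly independent over `ℚ` then so are the `t v i + w i` for
some rational `t ≠ 0`.

Proof. There is a linear map `π : E → (Fin m → ℚ)` with `π (v i) = e_i` (`Pi.single i 1`): a left
inverse, e.g. `LinearMap.exists_leftInverse_of_injective` for the injective map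
`Fintype.linearCombination ℚ v`. Let `T` be the endomorphism of `Fin m → ℚ` with
`T e_i = π (w i)` (e.g. `T = π ∘ Fintype.linearCombination ℚ w`). It has finitely many
eigenvalues (`Module.End.finite_hasEigenvalue`), so there is a rational `t ≠ 0` such that `- t` is
not an eigenvalue of `T`, i.e. `t + T` is injective (`ℚ` is infinite). Then the
`(t + T) e_i = π (t v i + w i)` are linearly independent, hence so are the `t v i + w i`
(`LinearIndependent.of_comp`). -/
def GI : Prop := ∀ (E : Type) [AddCommGroup E] [Module ℚ E] (m : ℕ) (v w : Fin m → E),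
  LinearIndependent ℚ v → ∃ t : ℚ, t ≠ 0 ∧ LinearIndependent ℚ (fun i => t • v i + w i)

/-- **(RL)** Let `X₀, X : H → E` be linear, with `X₀` of finite rank `m` and all `t X₀ + X` of
rank at most `m`. Then `X` maps the kernel of `X₀` into the range of `X₀`.

Proof. Choose `η 1, …, η m ∈ H` such that `X₀ (η i)` is a basis of the range of `X₀`
(`Module.finBasis`). Suppose `X₀ ξ = 0` and `X ξ` is not in the range of `X₀`. Then
`v = (X₀ (η 1), …, X₀ (η m), X ξ)` are linearly independent (`LinearIndependent.fin_snoc` or
`fin_cons`: put `X ξ` first). By `GI` with `w = (X (η 1), …, X (η m), 0)` there is a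
`t ≠ 0` such that the `t v i + w i` are linearly independent; these are
`(t X₀ + X) (η i)` and `t • X ξ = (t X₀ + X) (t ξ)`, i.e. `m + 1` linearly independent elements of
the range of `t X₀ + X`, whose rank is at most `m`, contradiction. -/
def RL : Prop := ∀ (H E : Type) [AddCommGroup H] [Module ℚ H] [AddCommGroup E] [Module ℚ E]
  (X₀ X : H →ₗ[ℚ] E) (m : ℕ), FiniteDimensional ℚ (LinearMap.range X₀) →
  Module.finrank ℚ (LinearMap.range X₀) = m →
  (∀ t : ℚ, Module.rank ℚ (LinearMap.range (t • X₀ + X)) ≤ m) →
  ∀ ξ : H, X₀ ξ = 0 → ∃ η : H, X₀ η = X ξ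

end Pool.Agent.Lib.MP_c82530_nt.UL
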