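import Pool.Agent.Lib.MP_c82530_nt.UL.Der
import Pool.Agent.Lib.MP_c82530_nt.UL.Stm

/-!
# MP_c82530_nt, project UL: properties of the derivations
-/

set_option autoImplicit false

open Set

namespace Pool.Agent.Lib.MP_c82530_nt.UL

/-- adding one exponent -/
lemma expSet_sup_le {B : Set ℂ} {V : Submodule ℚ ℂ} (a : ℂ) :
    B ∪ expSet (V ⊔ Submodule.span ℚ {a}) ⊆
      clF (insert (Complex.exp a) (B ∪ expSet V)) := by
  rintro x (hx | ⟨w, hw, rfl⟩)
  · exact subset_clF _ (Or.inr (Or.inl hx))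
  · obtain ⟨v, hv, z, hz, rfl⟩ := Submodule.mem_sup.1 hw
    obtain ⟨q, rfl⟩ := Submodule.mem_span_singleton.1 hz
    rw [Complex.exp_add]
    refine mul_mem (subset_clF _ (Or.inr (Or.inr ⟨v, hv, rfl⟩))) ?_
    exact exp_smul_mem _ (fun z hz => clF_closed hz) q (subset_clF _ (Or.inl rfl))

lemma step {B : Set ℂ} {W : Submodule ℚ ℂ} {l : ℂ} :
    ∀ (T : Finset ℂ), (∀ a ∈ T, a ∈ W) → ∀ V ≤ W, l ∉ clF (B ∪ expSet V) →
      l ∈ clF (B ∪ expSet V ∪ Complex.exp '' (T : Set ℂ)) →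
      ∃ V', V ≤ V' ∧ V' ≤ W ∧ ∃ a ∈ W, l ∉ clF (B ∪ expSet V') ∧
        l ∈ clF (insert (Complex.exp a) (B ∪ expSet V')) := by
  classical
  intro T
  induction T using Finset.induction_on with
  | empty =>
    intro _ V _ h1 h2
    exfalso
    apply h1
    rwa [Finset.coe_empty, image_empty, union_empty] at h2
  | insert a T haT ih =>
    intro hT V hV h1 h2
    have haW : a ∈ W := hT a (Finset.mem_insert_self a T)
    by_cases h3 : l ∈ clF (B ∪ expSet (V ⊔ Submodule.span ℚ {a}))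
    · exact ⟨V, le_rfl, hV, a, haW, h1, clF_le (expSet_sup_le a) h3⟩
    · have hV1 : V ⊔ Submodule.span ℚ {a} ≤ W :=
        sup_le hV (Submodule.span_le.2 (singleton_subset_iff.2 haW))
      obtain ⟨V', hV', hrest⟩ := ih (fun b hb => hT b (Finset.mem_insert_of_mem hb))
        (V ⊔ Submodule.span ℚ {a}) hV1 h3 (by
          refine clF_mono ?_ h2
          rintro x ((hx | ⟨v, hv, rfl⟩) | ⟨b, hb, rfl⟩)
          · exact Or.inl (Or.inl hx)
          · exact Or.inl (Or.inr ⟨v, Submodule.mem_sup_left hv, rfl⟩)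
          · rw [Finset.coe_insert] at hb
            rcases hb with rfl | hb
            · exact Or.inl (Or.inr ⟨b, Submodule.mem_sup_right
                (Submodule.mem_span_singleton_self b), rfl⟩)
            · exact Or.inr ⟨b, hb, rfl⟩)
      exact ⟨V', le_sup_left.trans hV', hrest⟩

lemma exists_finite_subset_of_image {s t : Set ℂ} (hs : s.Finite) (h : s ⊆ Complex.exp '' t) :
    ∃ T : Set ℂ, T ⊆ t ∧ T.Finite ∧ Complex.exp '' T = s := by
  obtain ⟨T, hT1, hT2⟩ := (subset_image_iff.mp h)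
  obtain ⟨T', hT', hb⟩ := exists_subset_bijOn T Complex.exp
  refine ⟨T', hT'.trans hT1, ?_, ?_⟩
  · apply Finite.of_finite_image _ hb.injOn
    rw [hb.image_eq, hT2]; exact hs
  · rw [hb.image_eq, hT2]

lemma exists_step {B : Set ℂ} {W V : Submodule ℚ ℂ} (hV : V ≤ W) {l : ℂ}
    (hl : l ∈ clF (B ∪ expSet W)) (hlV : l ∉ clF (B ∪ expSet V)) :
    ∃ V', V ≤ V' ∧ V' ≤ W ∧ ∃ a ∈ W, l ∉ clF (B ∪ expSet V') ∧
        l ∈ clF (insert (Complex.exp a) (B ∪ expSet V')) := by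
  classical
  rw [mem_clF] at hl
  obtain ⟨I, hI, hfin, -, hz2⟩ := Matroid.exists_mem_finite_closure_of_mem_closure hl
  obtain ⟨T, hT⟩ : ∃ T : Finset ℂ, (∀ a ∈ T, a ∈ W) ∧ I ⊆ B ∪ Complex.exp '' (T : Set ℂ) := by
    have h1 : ((I ∩ expSet W : Set ℂ)).Finite := hfin.subset inter_subset_left
    have h2 : (I ∩ expSet W : Set ℂ) ⊆ Complex.exp '' (W : Set ℂ) := inter_subset_right
    obtain ⟨T, hTW, hTfin, hTeq⟩ := exists_finite_subset_of_image h1 h2
    exact ⟨hTfin.toFinset, fun a ha => hTW (hTfin.mem_toFinset.1 ha), fun x hx => by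
      rcases hI hx with hx' | hx'
      · exact Or.inl hx'
      · right
        rw [hTfin.coe_toFinset, hTeq]
        exact ⟨hx, hx'⟩⟩
  refine step T hT.1 V hV hlV ?_
  rw [mem_clF]
  refine AM.closure_subset_closure ?_ hz2
  intro x hx
  rcases hT.2 hx with h | h
  · exact Or.inl (Or.inl h)
  · exact Or.inr h

/-- a linear form on `W` vanishing on `V` and not at `a` -/
lemma exists_form {W V : Submodule ℚ ℂ} {a : ℂ} (ha : a ∈ W) (haV : a ∉ V) :
    ∃ ξ : Module.Dual ℚ W, (∀ b : W, (b : ℂ) ∈ V → ξ b = 0) ∧ ξ ⟨a, ha⟩ = 1 := by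
  have h1 : (⟨a, ha⟩ : W) ∉ V.comap W.subtype := haV
  obtain ⟨f, hf1, hf2⟩ := Submodule.exists_le_ker_of_notMem h1
  refine ⟨(f ⟨a, ha⟩)⁻¹ • f, fun b hb => ?_, ?_⟩
  · have : f b = 0 := hf2 hb
    rw [LinearMap.smul_apply, this, smul_zero]
  · rw [LinearMap.smul_apply, smul_eq_mul, inv_mul_cancel₀ hf1]

/-- (P3) -/
theorem exists_dd_ne {B : Set ℂ} {W V : Submodule ℚ ℂ} (h : FreeOn B W) (hV : V ≤ W) {l : ℂ}
    (hl : l ∈ clF (B ∪ expSet W)) (hlV : l ∉ clF (B ∪ expSet V)) :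
    ∃ ξ : Module.Dual ℚ W, (∀ b : W, (b : ℂ) ∈ V → ξ b = 0) ∧ dd h ξ l ≠ 0 := by
  obtain ⟨V', hVV', hV'W, a, haW, h1, h2⟩ := exists_step hV hl hlV
  have haV : a ∉ V' := fun ha => h1 (clF_insert (subset_clF _ (Or.inr ⟨a, ha, rfl⟩)) h2)
  obtain ⟨ξ, hξ, hξa⟩ := exists_form haW haV
  refine ⟨ξ, fun b hb => hξ b (hVV' hb), fun h0 => ?_⟩
  have h3 := clF_exch h2 h1
  have h4 : dd h ξ (Complex.exp a) = 0 := by
    refine der_zero _ ?_ h3
    rintro x (rfl | hx | ⟨v, hv, rfl⟩)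
    · exact h0
    · exact dd_B h ξ hx
    · rw [dd_exp h ξ ⟨v, hV'W hv⟩, hξ ⟨v, hV'W hv⟩ hv]
      simp
  rw [dd_exp h ξ ⟨a, haW⟩, hξa] at h4
  simp at h4

/-- (P4) -/
theorem dd_dd {NLh : NL} {B : Set ℂ} {W : Submodule ℚ ℂ} (h : FreeOn B W)
    (ξ : Module.Dual ℚ W) {l : ℂ} (hl : l ∈ clF (B ∪ expSet W))
    (h2 : dd h ξ (dd h ξ l) = 0) : dd h ξ l = 0 := by
  by_cases h0 : ξ = 0
  · refine dd_zero h le_rfl ξ ?_ hl
    intro a _
    rw [h0]
    rfl
  obtain ⟨a₁, ha₁⟩ : ∃ a : W, ξ a ≠ 0 := by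
    by_contra hcon
    push Not at hcon
    exact h0 (LinearMap.ext hcon)
  obtain ⟨a₀, ha₀⟩ : ∃ a : W, ξ a = 1 := ⟨(ξ a₁)⁻¹ • a₁, by rw [map_smul, smul_eq_mul,
    inv_mul_cancel₀ ha₁]⟩
  set V : Submodule ℚ ℂ := (LinearMap.ker ξ).map W.subtype with hV
  have hVW : V ≤ W := by
    rintro _ ⟨b, _, rfl⟩
    exact b.2
  have hξV : ∀ b : W, (b : ℂ) ∈ V → ξ b = 0 := by
    rintro b ⟨c, hc, hcb⟩
    rw [← (Subtype.ext hcb : c = b)]
    exact hc
  have hWV : B ∪ expSet W ⊆ clF (insert (Complex.exp (a₀ : ℂ)) (B ∪ expSet V)) := by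
    refine Subset.trans ?_ (expSet_sup_le (a₀ : ℂ))
    refine union_subset_union_right B (image_mono ?_)
    intro w hw
    have hv : (⟨w, hw⟩ - ξ ⟨w, hw⟩ • a₀ : W) ∈ LinearMap.ker ξ := by
      rw [LinearMap.mem_ker, map_sub, map_smul, ha₀, smul_eq_mul, mul_one, sub_self]
    have hvV : ((⟨w, hw⟩ - ξ ⟨w, hw⟩ • a₀ : W) : ℂ) ∈ V := ⟨_, hv, rfl⟩
    have e : w = ((⟨w, hw⟩ - ξ ⟨w, hw⟩ • a₀ : W) : ℂ) + ξ ⟨w, hw⟩ • (a₀ : ℂ) := by
      push_cast
      ring
    rw [SetLike.mem_coe, e]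
    exact Submodule.add_mem_sup hvV
      (Submodule.smul_mem _ _ (Submodule.mem_span_singleton_self _))
  have hea : dd h ξ (Complex.exp (a₀ : ℂ)) = Complex.exp (a₀ : ℂ) := by
    rw [dd_exp, ha₀]
    simp
  -- `D l` lies in the field of constants
  have hc : dd h ξ l ∈ clF (B ∪ expSet V) := by
    by_contra hcon
    have h3 := clF_exch (clF_le hWV (dd_stab h le_rfl ξ hl)) hcon
    have h4 : dd h ξ (Complex.exp (a₀ : ℂ)) = 0 := by
      refine der_zero _ ?_ h3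
      rintro x (rfl | hx | ⟨v, hv, rfl⟩)
      · exact h2
      · exact dd_B h ξ hx
      · rw [dd_exp h ξ ⟨v, hVW hv⟩, hξV ⟨v, hVW hv⟩ hv]
        simp
    rw [hea] at h4
    exact Complex.exp_ne_zero _ h4
  set C := clF (B ∪ expSet V) with hC
  have hDC : ∀ c ∈ C, dd h ξ c = 0 := fun c hc => dd_zero h hVW ξ hξV hc
  let D' : Derivation C ℂ ℂ := Derivation.mk'
    { toFun := dd h ξ
      map_add' := map_add _
      map_smul' := fun c z => by
        rw [RingHom.id_apply, Algebra.smul_def, Algebra.smul_def, Derivation.leibniz]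
        rw [show dd h ξ (algebraMap C ℂ c) = 0 from hDC c c.2, smul_zero, add_zero,
          smul_eq_mul] }
    (fun a b => (dd h ξ).leibniz a b)
  have hD' : ∀ z, D' z = dd h ξ z := fun z => rfl
  have halg : IsAlgebraic (IntermediateField.adjoin C {Complex.exp (a₀ : ℂ)}) l := by
    have h3 : l ∈ clF (insert (Complex.exp (a₀ : ℂ)) (B ∪ expSet V)) := clF_le hWV hl
    rw [mem_clF] at h3
    refine isAlgebraic_of_mem_cl ((IntermediateField.adjoin C
      {Complex.exp (a₀ : ℂ)}).restrictScalars ℚ) ?_ h3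
    rintro x (rfl | hx)
    · exact IntermediateField.mem_adjoin_simple_self C _
    · exact (IntermediateField.adjoin C {Complex.exp (a₀ : ℂ)}).algebraMap_mem
        ⟨x, subset_clF _ hx⟩
  have := NLh C ℂ D' (Complex.exp (a₀ : ℂ)) l ⟨dd h ξ l, hc⟩ (Complex.exp_ne_zero _)
    hea halg rfl
  exact congrArg Subtype.val this

/-- (L7) forms whose number exceeds the dimension of the exponent space are dependent on `l` -/
theorem exists_rel {B : Set ℂ} {W V : Submodule ℚ ℂ} (h : FreeOn B W) (hV : V ≤ W)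
    [FiniteDimensional ℚ V] {m : ℕ} (hm : Module.finrank ℚ V < m) (ξ : Fin m → Module.Dual ℚ W) :
    ∃ c : Fin m → ℚ, c ≠ 0 ∧ ∀ l ∈ clF (B ∪ expSet V), ∑ j, c j • dd h (ξ j) l = 0 := by
  have hdep : ¬ LinearIndependent ℚ (fun j => (ξ j).comp (Submodule.inclusion hV)) := by
    intro hli
    have := hli.fintype_card_le_finrank
    rw [Subspace.dual_finrank_eq, Fintype.card_fin] at this
    omega
  rw [Fintype.not_linearIndependent_iff] at hdep
  obtain ⟨c, hc, i, hi⟩ := hdep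
  refine ⟨c, fun h0 => hi (by rw [h0]; rfl), fun l hl => ?_⟩
  have hlW : l ∈ clF (B ∪ expSet W) := clF_mono (union_subset_union_right B (image_mono hV)) hl
  have h1 : ∑ j, c j • dd h (ξ j) l = XX h l hlW (∑ j, c j • ξ j) := by
    rw [map_sum]
    exact Finset.sum_congr rfl fun j _ => by rw [map_smul, XX_apply]
  rw [h1, XX_apply]
  refine dd_zero h hV _ ?_ hl
  intro a ha
  have h2 := LinearMap.congr_fun hc ⟨(a : ℂ), ha⟩
  rw [LinearMap.sum_apply] at h2
  rw [LinearMap.sum_apply]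
  exact h2

/-- the rank of `XX` is at most the dimension of the exponent space -/
theorem rank_XX_le {B : Set ℂ} {W V : Submodule ℚ ℂ} (h : FreeOn B W) (hV : V ≤ W)
    [FiniteDimensional ℚ V] {m : ℕ} (hm : Module.finrank ℚ V ≤ m) {l : ℂ}
    (hl : l ∈ clF (B ∪ expSet V)) (hlW : l ∈ clF (B ∪ expSet W)) :
    Module.rank ℚ (LinearMap.range (XX h l hlW)) ≤ m := by
  classical
  refine rank_le fun s hs => ?_
  by_contra hcon
  push Not at hcon
  obtain ⟨e⟩ : Nonempty (Fin s.card ≃ s) := ⟨s.equivFin.symm⟩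
  have hpre : ∀ j : Fin s.card, ∃ ξ, XX h l hlW ξ = ((e j : LinearMap.range (XX h l hlW)) : ℂ) :=
    fun j => (e j : LinearMap.range (XX h l hlW)).2
  choose ξ hξ using hpre
  obtain ⟨c, hc0, hc⟩ := exists_rel h hV (lt_of_le_of_lt hm hcon) ξ
  have h1 := hc l hl
  have h2 : LinearIndependent ℚ (fun j : Fin s.card => ((e j : LinearMap.range (XX h l hlW)))) :=
    (hs.comp e e.injective)
  rw [Fintype.linearIndependent_iff] at h2
  apply hc0
  funext j
  refine h2 c ?_ j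
  apply Subtype.ext
  rw [AddSubmonoidClass.coe_finsetSum]
  refine Eq.trans ?_ h1
  refine Finset.sum_congr rfl fun j _ => ?_
  rw [← XX_apply h l hlW, hξ]
  rfl

/-- (L8) a number whose map has finite rank `m` has an exponent space of dimension at most `m` -/
theorem exists_space {B : Set ℂ} {W : Submodule ℚ ℂ} (h : FreeOn B W) [FiniteDimensional ℚ W]
    {l : ℂ} (hl : l ∈ clF (B ∪ expSet W)) :
    ∃ V ≤ W, Module.finrank ℚ V = Module.finrank ℚ (LinearMap.range (XX h l hl)) ∧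
      l ∈ clF (B ∪ expSet V) := by
  set Φ := LinearMap.ker (XX h l hl) with hΦ
  set U : Submodule ℚ W := Φ.dualCoannihilator with hU
  refine ⟨U.map W.subtype, ?_, ?_, ?_⟩
  · rintro _ ⟨b, _, rfl⟩
    exact b.2
  · rw [Submodule.finrank_map_subtype_eq]
    have h1 := Subspace.finrank_add_finrank_dualCoannihilator_eq Φ
    have h2 := LinearMap.finrank_range_add_finrank_ker (XX h l hl)
    rw [Subspace.dual_finrank_eq, ← hΦ] at h2
    rw [hU]
    omega
  · by_contra hcon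
    obtain ⟨ξ, hξ, hne⟩ := exists_dd_ne h (V := U.map W.subtype) (by
      rintro _ ⟨b, _, rfl⟩
      exact b.2) hl hcon
    apply hne
    have h1 : ξ ∈ U.dualAnnihilator := by
      rw [Submodule.mem_dualAnnihilator]
      intro w hw
      exact hξ w ⟨w, hw, rfl⟩
    rw [hU, Subspace.dualCoannihilator_dualAnnihilator_eq] at h1
    exact h1

end Pool.Agent.Lib.MP_c82530_nt.UL
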