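import Pool.Agent.Lib.MP_c82530_nt.Support
import Pool.Agent.Lib.MP_52aaf2_al.EX.P_der1
import Pool.Agent.Lib.MP_52aaf2_al.EX.P_dst

/-!
# MP_c82530_nt, project UL: derivations attached to linear forms on the exponents
-/

set_option autoImplicit false

open Set

namespace Pool.Agent.Lib.MP_c82530_nt.UL

lemma clF_eq_acl (s : Set ℂ) : (clF s : Set ℂ) = MP52exp.acl ℚ s := by
  rw [MP52exp.coe_acl]
  ext z
  exact mem_clF

lemma mem_acl_iff {s : Set ℂ} {z : ℂ} : z ∈ MP52exp.acl ℚ s ↔ z ∈ clF s := by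
  rw [MP52exp.mem_acl_iff_closure, mem_clF]

lemma subset_clF (s : Set ℂ) : s ⊆ clF s := by
  intro z hz
  rw [SetLike.mem_coe, mem_clF]
  exact AM.mem_closure_of_mem' hz (mem_univ _)

lemma clF_le {s t : Set ℂ} (h : s ⊆ clF t) : clF s ≤ clF t := by
  intro z hz
  rw [mem_clF] at hz ⊢
  have h' : s ⊆ AM.closure t := fun y hy => mem_clF.1 (h hy)
  have h1 := AM.closure_subset_closure h' hz
  rwa [Matroid.closure_closure] at h1

lemma clF_mono {s t : Set ℂ} (h : s ⊆ t) : clF s ≤ clF t :=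
  clF_le (h.trans (subset_clF t))

lemma clF_exch {s : Set ℂ} {a b : ℂ} (h : a ∈ clF (insert b s)) (h' : a ∉ clF s) :
    b ∈ clF (insert a s) := by
  rw [mem_clF] at h h' ⊢
  exact Matroid.mem_closure_insert h' h

lemma clF_insert {s : Set ℂ} {a : ℂ} (h : a ∈ clF s) : clF (insert a s) ≤ clF s := by
  apply clF_le
  rintro z (rfl | hz)
  · exact h
  · exact subset_clF s hz

lemma der_zero {s : Set ℂ} (D : Derivation ℚ ℂ ℂ) (h : ∀ a ∈ s, D a = 0) {z : ℂ}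
    (hz : z ∈ clF s) : D z = 0 :=
  (MP52exp.P_dst ℚ ℂ s D).2 h z (mem_acl_iff.2 hz)

lemma der_stab {s : Set ℂ} (D : Derivation ℚ ℂ ℂ) (h : ∀ a ∈ s, D a ∈ clF s) {z : ℂ}
    (hz : z ∈ clF s) : D z ∈ clF s :=
  mem_acl_iff.1 ((MP52exp.P_dst ℚ ℂ s D).1 (fun a ha => mem_acl_iff.2 (h a ha)) z
    (mem_acl_iff.2 hz))

lemma der_exists {s : Set ℂ} {y : ℂ} (hy : y ∉ clF s) :
    ∃ D : Derivation ℚ ℂ ℂ, (∀ a ∈ clF s, D a = 0) ∧ D y = 1 := by
  obtain ⟨D, h1, h2⟩ := MP52exp.P_der1 ℚ ℂ s y (fun h => hy (mem_acl_iff.1 h))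
  exact ⟨D, fun a ha => h1 a (mem_acl_iff.2 ha), h2⟩

/-- the exponentials of elements of `W` outside `V` are not algebraic over `ℚ(B, exp V)`. -/
def FreeOn (B : Set ℂ) (W : Submodule ℚ ℂ) : Prop :=
  ∀ V ≤ W, ∀ a ∈ W, a ∉ V → Complex.exp a ∉ clF (B ∪ expSet V)

lemma FreeOn.mono {B : Set ℂ} {W W' : Submodule ℚ ℂ} (h : FreeOn B W') (hW : W ≤ W') :
    FreeOn B W :=
  fun V hV a ha haV => h V (hV.trans hW) a (hW ha) haV

/-- derivative of a rational power of an exponential -/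
lemma der_exp_smul (D : Derivation ℚ ℂ ℂ) (a : ℂ) (c : ℂ)
    (h : D (Complex.exp a) = c * Complex.exp a) (q : ℚ) :
    D (Complex.exp (q • a)) = (q * c) * Complex.exp (q • a) := by
  have h1 := congrArg D (exp_smul_pow q a)
  rw [Derivation.leibniz_pow, Derivation.leibniz_zpow, h, smul_eq_mul, smul_eq_mul,
    nsmul_eq_mul, zsmul_eq_mul] at h1
  have hx : Complex.exp a ≠ 0 := Complex.exp_ne_zero a
  have hy : Complex.exp (q • a) ≠ 0 := Complex.exp_ne_zero _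
  have h2 : (Complex.exp a) ^ (q.num - 1) * (c * Complex.exp a) =
      c * Complex.exp (q • a) ^ q.den := by
    rw [exp_smul_pow, zpow_sub_one₀ hx]
    field_simp
  rw [h2] at h1
  have hd : (q.den : ℂ) ≠ 0 := by exact_mod_cast q.den_nz
  have h3 : Complex.exp (q • a) ^ q.den =
      Complex.exp (q • a) ^ (q.den - 1) * Complex.exp (q • a) := by
    rw [← pow_succ, Nat.sub_add_cancel q.den_pos]
  rw [h3] at h1
  have hp : Complex.exp (q • a) ^ (q.den - 1) ≠ 0 := pow_ne_zero _ hy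
  have h4 : (q.den : ℂ) * D (Complex.exp (q • a)) = q.num * c * Complex.exp (q • a) := by
    apply mul_left_cancel₀ hp
    linear_combination h1
  have hq : (q : ℂ) = q.num / q.den := by
    conv_lhs => rw [← Rat.num_div_den q]
    push_cast
    rfl
  rw [hq]
  field_simp
  linear_combination h4

/-- the derivation attached to a linear form on the exponents -/
theorem exists_der {B : Set ℂ} {W : Submodule ℚ ℂ} (h : FreeOn B W) (ξ : Module.Dual ℚ W) :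
    ∃ D : Derivation ℚ ℂ ℂ, (∀ b ∈ B, D b = 0) ∧
      ∀ a : W, D (Complex.exp (a : ℂ)) = (ξ a : ℂ) * Complex.exp (a : ℂ) := by
  by_cases h0 : ξ = 0
  · refine ⟨0, fun b _ => rfl, fun a => ?_⟩
    rw [h0]
    simp
  obtain ⟨a₁, ha₁⟩ : ∃ a : W, ξ a ≠ 0 := by
    by_contra hcon
    push Not at hcon
    exact h0 (LinearMap.ext hcon)
  obtain ⟨a₀, ha₀⟩ : ∃ a : W, ξ a = 1 := ⟨(ξ a₁)⁻¹ • a₁, by rw [map_smul, smul_eq_mul,
    inv_mul_cancel₀ ha₁]⟩
  set V : Submodule ℚ ℂ := (LinearMap.ker ξ).map W.subtype with hV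
  have haV : (a₀ : ℂ) ∉ V := by
    rintro ⟨b, hb, hba⟩
    have : b = a₀ := Subtype.ext hba
    rw [this, SetLike.mem_coe, LinearMap.mem_ker, ha₀] at hb
    exact one_ne_zero hb
  have hVW : V ≤ W := by
    rintro _ ⟨b, _, rfl⟩
    exact b.2
  obtain ⟨δ, hδ, hδ1⟩ := der_exists (h V hVW a₀ a₀.2 haV)
  have hD0 : (Complex.exp (a₀ : ℂ) • δ) (Complex.exp (a₀ : ℂ)) =
      1 * Complex.exp (a₀ : ℂ) := by
    rw [Derivation.smul_apply, hδ1, smul_eq_mul, mul_one, one_mul]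
  refine ⟨Complex.exp (a₀ : ℂ) • δ, fun b hb => ?_, fun a => ?_⟩
  · rw [Derivation.smul_apply, hδ b (subset_clF _ (Or.inl hb)), smul_zero]
  · have hv : (a - ξ a • a₀ : W) ∈ LinearMap.ker ξ := by
      rw [LinearMap.mem_ker, map_sub, map_smul, ha₀, smul_eq_mul, mul_one, sub_self]
    have hvV : ((a - ξ a • a₀ : W) : ℂ) ∈ V := ⟨_, hv, rfl⟩
    have h1 : Complex.exp (a : ℂ) = Complex.exp ((a - ξ a • a₀ : W) : ℂ) *
        Complex.exp (ξ a • (a₀ : ℂ)) := by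
      rw [← Complex.exp_add]
      congr 1
      push_cast
      ring
    rw [h1, Derivation.leibniz, der_exp_smul _ _ 1 hD0, mul_one]
    have h2 : (Complex.exp (a₀ : ℂ) • δ) (Complex.exp ((a - ξ a • a₀ : W) : ℂ)) = 0 := by
      rw [Derivation.smul_apply, hδ _ (subset_clF _ (Or.inr ⟨_, hvV, rfl⟩)), smul_zero]
    rw [h2, smul_zero, add_zero, smul_eq_mul]
    ring

/-- a chosen derivation attached to a linear form on the exponents -/
noncomputable def dd {B : Set ℂ} {W : Submodule ℚ ℂ} (h : FreeOn B W) (ξ : Module.Dual ℚ W) :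
    Derivation ℚ ℂ ℂ := (exists_der h ξ).choose

lemma dd_B {B : Set ℂ} {W : Submodule ℚ ℂ} (h : FreeOn B W) (ξ : Module.Dual ℚ W) {b : ℂ}
    (hb : b ∈ B) : dd h ξ b = 0 := (exists_der h ξ).choose_spec.1 b hb

lemma dd_exp {B : Set ℂ} {W : Submodule ℚ ℂ} (h : FreeOn B W) (ξ : Module.Dual ℚ W) (a : W) :
    dd h ξ (Complex.exp (a : ℂ)) = (ξ a : ℂ) * Complex.exp (a : ℂ) :=
  (exists_der h ξ).choose_spec.2 a

/-- uniqueness -/
lemma dd_unique {B : Set ℂ} {W V : Submodule ℚ ℂ} (h : FreeOn B W) (hV : V ≤ W)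
    (ξ : Module.Dual ℚ W) (D : Derivation ℚ ℂ ℂ) (hB : ∀ b ∈ B, D b = 0)
    (hD : ∀ a : W, (a : ℂ) ∈ V → D (Complex.exp (a : ℂ)) = (ξ a : ℂ) * Complex.exp (a : ℂ)) {l : ℂ}
    (hl : l ∈ clF (B ∪ expSet V)) : dd h ξ l = D l := by
  have h1 : (dd h ξ - D) l = 0 := by
    refine der_zero _ ?_ hl
    rintro a (ha | ⟨v, hv, rfl⟩)
    · rw [Derivation.sub_apply, dd_B h ξ ha, hB a ha, sub_zero]
    · rw [Derivation.sub_apply, dd_exp h ξ ⟨v, hV hv⟩, hD ⟨v, hV hv⟩ hv, sub_self]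
  rwa [Derivation.sub_apply, sub_eq_zero] at h1

/-- (P1) -/
lemma dd_stab {B : Set ℂ} {W V : Submodule ℚ ℂ} (h : FreeOn B W) (hV : V ≤ W)
    (ξ : Module.Dual ℚ W) {l : ℂ} (hl : l ∈ clF (B ∪ expSet V)) :
    dd h ξ l ∈ clF (B ∪ expSet V) := by
  refine der_stab _ ?_ hl
  rintro a (ha | ⟨v, hv, rfl⟩)
  · rw [dd_B h ξ ha]
    exact zero_mem _
  · rw [dd_exp h ξ ⟨v, hV hv⟩]
    refine mul_mem ?_ (subset_clF _ (Or.inr ⟨v, hv, rfl⟩))
    exact (clF (B ∪ expSet V)).algebraMap_mem (ξ ⟨v, hV hv⟩)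

/-- (P2) -/
lemma dd_zero {B : Set ℂ} {W V : Submodule ℚ ℂ} (h : FreeOn B W) (hV : V ≤ W)
    (ξ : Module.Dual ℚ W) (hξ : ∀ a : W, (a : ℂ) ∈ V → ξ a = 0) {l : ℂ}
    (hl : l ∈ clF (B ∪ expSet V)) : dd h ξ l = 0 := by
  refine der_zero _ ?_ hl
  rintro a (ha | ⟨v, hv, rfl⟩)
  · exact dd_B h ξ ha
  · rw [dd_exp h ξ ⟨v, hV hv⟩, hξ ⟨v, hV hv⟩ hv]
    simp

/-- the linear map `ξ ↦ D_ξ l` -/
noncomputable def XX {B : Set ℂ} {W : Submodule ℚ ℂ} (h : FreeOn B W) (l : ℂ)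
    (hl : l ∈ clF (B ∪ expSet W)) : Module.Dual ℚ W →ₗ[ℚ] ℂ where
  toFun ξ := dd h ξ l
  map_add' ξ η := by
    refine (dd_unique h le_rfl (ξ + η) (dd h ξ + dd h η) ?_ ?_ hl).trans rfl
    · intro b hb
      rw [Derivation.add_apply, dd_B h ξ hb, dd_B h η hb, add_zero]
    · intro a _
      rw [Derivation.add_apply, dd_exp, dd_exp, LinearMap.add_apply]
      push_cast
      ring
  map_smul' q ξ := by
    refine (dd_unique h le_rfl (q • ξ) (q • dd h ξ) ?_ ?_ hl).trans rfl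
    · intro b hb
      rw [Derivation.smul_apply, dd_B h ξ hb, smul_zero]
    · intro a _
      rw [Derivation.smul_apply, dd_exp, LinearMap.smul_apply, Algebra.smul_def, smul_eq_mul,
        eq_ratCast]
      push_cast
      ring

@[simp] lemma XX_apply {B : Set ℂ} {W : Submodule ℚ ℂ} (h : FreeOn B W) (l : ℂ)
    (hl : l ∈ clF (B ∪ expSet W)) (ξ : Module.Dual ℚ W) : XX h l hl ξ = dd h ξ l := rfl

end Pool.Agent.Lib.MP_c82530_nt.UL
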