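import Pool.Agent.Lib.MP_c82530_nt.UL.Rel

/-!
# MP_c82530_nt, project UL: one number
-/

set_option autoImplicit false

open Set

namespace Pool.Agent.Lib.MP_c82530_nt.UL

/-! ### exponentials of algebraic numbers -/

lemma exp_not_mem_cl {V : Submodule ℚ ℂ} (hV : ∀ v ∈ V, IsAlgebraic ℚ v) {a : ℂ}
    (ha : IsAlgebraic ℚ a) (haV : a ∉ V) : Complex.exp a ∉ AM.closure (expSet V) := by
  intro h
  have h1 : Complex.exp a ∈ AM.closure (expSet (Submodule.span ℚ {a})) :=
    AM.mem_closure_of_mem' ⟨a, Submodule.mem_span_singleton_self a, rfl⟩ (mem_univ _)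
  have hsa : ∀ w ∈ Submodule.span ℚ {a}, IsAlgebraic ℚ w := by
    intro w hw
    obtain ⟨q, rfl⟩ := Submodule.mem_span_singleton.1 hw
    rw [← mem_Kalg]
    exact Kalg.smul_mem q (mem_Kalg.2 ha)
  have h2 := cl_inf hV hsa h h1
  have h3 : V ⊓ Submodule.span ℚ {a} = ⊥ := by
    rw [eq_bot_iff]
    rintro x ⟨hxV, hxa⟩
    obtain ⟨q, rfl⟩ := Submodule.mem_span_singleton.1 hxa
    by_cases hq : q = 0
    · rw [hq, zero_smul]
      exact Submodule.zero_mem _
    · exfalso
      apply haV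
      have := V.smul_mem q⁻¹ hxV
      rwa [smul_smul, inv_mul_cancel₀ hq, one_smul] at this
  rw [h3, expSet_bot, mem_cl_empty] at h2
  have ha0 : a ≠ 0 := by
    rintro rfl
    exact haV V.zero_mem
  have h4 := lw (fun _ : Unit => a) (fun _ => ha) (LinearIndependent.of_subsingleton () ha0)
  rw [algebraicIndependent_unique_type_iff] at h4
  exact h4 h2

theorem freeOn_Kalg : FreeOn ∅ Kalg := by
  intro V hV a ha haV
  rw [empty_union, mem_clF]
  exact exp_not_mem_cl (fun v hv => mem_Kalg.1 (hV hv)) (mem_Kalg.1 ha) haV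

lemma freeOn_empty {W : Submodule ℚ ℂ} (hW : W ≤ Kalg) : FreeOn ∅ W := freeOn_Kalg.mono hW

lemma Kalg_infinite (S : Submodule ℚ ℂ) [FiniteDimensional ℚ S] : ¬ Kalg ≤ S := by
  intro h
  obtain ⟨p, hp, hpp⟩ := Nat.exists_infinite_primes (Module.finrank ℚ S + 2)
  have hprim := Complex.isPrimitiveRoot_exp p hpp.ne_zero
  set ζ := Complex.exp (2 * Real.pi * Complex.I / p) with hζ
  have hdeg : (minpoly ℚ ζ).natDegree = p - 1 := by
    rw [← Polynomial.cyclotomic_eq_minpoly_rat hprim hpp.pos, Polynomial.natDegree_cyclotomic,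
      Nat.totient_prime hpp]
  have hint : IsIntegral ℚ ζ := (hprim.isIntegral hpp.pos).tower_top
  have hli := linearIndependent_pow (K := ℚ) ζ
  have hmem : ∀ i : Fin (minpoly ℚ ζ).natDegree, ζ ^ (i : ℕ) ∈ S := fun i =>
    h (mem_Kalg.2 (hint.isAlgebraic.pow _))
  have hli2 : LinearIndependent ℚ (fun i : Fin (minpoly ℚ ζ).natDegree =>
      (⟨ζ ^ (i : ℕ), hmem i⟩ : S)) := LinearIndependent.of_comp S.subtype hli
  have := hli2.fintype_card_le_finrank
  rw [Fintype.card_fin, hdeg] at this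
  omega

/-- a small space of algebraic numbers is contained in one of dimension exactly `n` -/
lemma exists_tuple {S : Submodule ℚ ℂ} (hS : S ≤ Kalg) [FiniteDimensional ℚ S] {n : ℕ}
    (hn : Module.finrank ℚ S ≤ n) :
    ∃ a : Fin n → ℂ, (∀ i, IsAlgebraic ℚ (a i)) ∧ LinearIndependent ℚ a ∧
      S ≤ Submodule.span ℚ (range a) := by
  obtain ⟨k, rfl⟩ := Nat.exists_eq_add_of_le hn
  clear hn
  induction k with
  | zero =>
    obtain ⟨b, hb, hbs⟩ := exists_fin_basis S
    refine ⟨b, fun i => ?_, hb, hbs.ge⟩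
    rw [← mem_Kalg]
    apply hS
    rw [← hbs]
    exact Submodule.subset_span (mem_range_self i)
  | succ k ih =>
    obtain ⟨a, ha, hli, hSa⟩ := ih
    have hfd : FiniteDimensional ℚ (Submodule.span ℚ (range a)) :=
      FiniteDimensional.span_of_finite ℚ (finite_range a)
    obtain ⟨x, hx, hxa⟩ : ∃ x ∈ Kalg, x ∉ Submodule.span ℚ (range a) := by
      have := Kalg_infinite (Submodule.span ℚ (range a))
      rwa [SetLike.not_le_iff_exists] at this
    refine ⟨Fin.cons x a, fun i => ?_, linearIndependent_finCons.2 ⟨hli, hxa⟩, hSa.trans ?_⟩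
    · refine Fin.cases ?_ (fun j => ?_) i
      · exact mem_Kalg.1 hx
      · exact ha j
    · apply Submodule.span_mono
      rintro _ ⟨i, rfl⟩
      exact ⟨i.succ, rfl⟩

/-! ### universal numbers -/

/-- `exp (a 1), …, exp (a n), w` are algebraically independent over the algebraic numbers -/
def AI1 {n : ℕ} (a : Fin n → ℂ) (w : ℂ) : Prop :=
  AlgebraicIndependent (integralClosure ℚ ℂ)
    (Sum.elim (fun i : Fin n => Complex.exp (a i)) (fun _ : Fin 1 => w))

/-- `w` is algebraically independent of the exponentials of all `n`-tuples -/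
def Univ (n : ℕ) (w : ℂ) : Prop :=
  ∀ a : Fin n → ℂ, (∀ i, IsAlgebraic ℚ (a i)) → LinearIndependent ℚ a → AI1 a w

lemma span_le_Kalg {n : ℕ} {a : Fin n → ℂ} (ha : ∀ i, IsAlgebraic ℚ (a i)) :
    Submodule.span ℚ (range a) ≤ Kalg := by
  rw [Submodule.span_le]
  rintro _ ⟨i, rfl⟩
  exact mem_Kalg.2 (ha i)

lemma finrank_span_le' {n : ℕ} (a : Fin n → ℂ) :
    Module.finrank ℚ (Submodule.span ℚ (range a)) ≤ n := by
  have := finrank_range_le_card (R := ℚ) a
  rwa [Set.finrank, Fintype.card_fin] at this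

theorem univ_iff {n : ℕ} {w : ℂ} : Univ n w ↔ ¬ Small ∅ n w := by
  constructor
  · rintro h ⟨S, hSK, hSfd, hSn, hS⟩
    obtain ⟨a, ha, hli, hSa⟩ := exists_tuple hSK hSn
    refine (indep_iff ha hli).1 (h a ha hli) ?_
    rw [empty_union, mem_clF] at hS
    exact AM.closure_subset_closure (image_mono hSa) hS
  · intro h a ha hli
    refine (indep_iff ha hli).2 fun hw => h ⟨Submodule.span ℚ (range a), span_le_Kalg ha,
      FiniteDimensional.span_of_finite ℚ (finite_range a), finrank_span_le' a, ?_⟩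
    rw [empty_union, mem_clF]
    exact hw

/-- the second alternative -/
def Bad (Λ : Submodule ℚ ℂ) (n : ℕ) : Prop :=
  ∃ V ≤ Kalg, FiniteDimensional ℚ V ∧ Module.finrank ℚ V ≤ n ∧
    ∀ l ∈ Λ, l ∈ clF (∅ ∪ expSet V)

/-- **Theorem** (one number): the generic element is universal, or there is one exponent space. -/
theorem exists_matrix (Λ : Submodule ℚ ℂ) (n : ℕ) (hn : ¬ Bad Λ n) :
    ∃ M : Λ →ₗ[ℚ] Matrix (Fin (n + 1)) (Fin (n + 1)) ℚ, (∃ l, (M l).det ≠ 0) ∧
      ∀ l : Λ, (M l).det ≠ 0 → ¬ Small ∅ n (l : ℂ) := by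
  classical
  by_cases hK : ∀ l ∈ Λ, l ∈ clF (∅ ∪ expSet Kalg)
  · obtain ⟨l₀, hl₀Λ, hl₀⟩ : ∃ l₀ ∈ Λ, ¬ Small ∅ n l₀ := by
      by_contra hcon
      push Not at hcon
      exact hn (rel (fun W hW _ _ => freeOn_empty hW) Λ hcon)
    obtain ⟨W, hWK, hWfd, hlW⟩ : ∃ W ≤ Kalg, FiniteDimensional ℚ W ∧
        l₀ ∈ clF (∅ ∪ expSet W) := by
      have h1 := hK l₀ hl₀Λ
      rw [empty_union, mem_clF] at h1
      obtain ⟨W, h2, h3, h4⟩ := exists_fd h1
      exact ⟨W, h2, h3, by rwa [empty_union, mem_clF]⟩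
    have hW : FreeOn ∅ W := freeOn_empty hWK
    have hrank : n + 1 ≤ Module.finrank ℚ (LinearMap.range (XX hW l₀ hlW)) := by
      by_contra hcon
      push Not at hcon
      obtain ⟨V, hVW, hVr, hV⟩ := exists_space hW hlW
      exact hl₀ ⟨V, hVW.trans hWK, Submodule.finiteDimensional_of_le hVW, by omega, hV⟩
    obtain ⟨y, hy⟩ := exists_linearIndependent_of_le_finrank hrank
    have hpre : ∀ j, ∃ ξ, XX hW l₀ hlW ξ = (y j : ℂ) := fun j => (y j).2
    choose ξ hξ using hpre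
    have hext : ∀ j, ∃ g : ℂ →ₗ[ℚ] ℚ, g.comp W.subtype = ξ j := fun j =>
      LinearMap.exists_extend (ξ j)
    choose g hg using hext
    set η : Fin (n + 1) → Module.Dual ℚ Kalg := fun j => (g j).comp Kalg.subtype with hη
    have hηy : ∀ j, dd freeOn_Kalg (η j) l₀ = (y j : ℂ) := by
      intro j
      rw [← hξ j, XX_apply]
      refine (dd_unique hW le_rfl (ξ j) _ (fun b hb => absurd hb (notMem_empty b)) ?_ hlW).symm
      intro a _
      have h3 := dd_exp freeOn_Kalg (η j) ⟨(a : ℂ), hWK a.2⟩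
      have h4 : g j (a : ℂ) = ξ j a := LinearMap.congr_fun (hg j) a
      have h5 : (η j) ⟨(a : ℂ), hWK a.2⟩ = ξ j a := h4
      rw [h5] at h3
      exact h3
    have hyC : LinearIndependent ℚ (fun j => (y j : ℂ)) :=
      hy.map' (LinearMap.range (XX hW l₀ hlW)).subtype (Submodule.ker_subtype _)
    obtain ⟨π, hπ⟩ : ∃ π : ℂ →ₗ[ℚ] (Fin (n + 1) → ℚ), ∀ j, π (y j : ℂ) = Pi.single j 1 := by
      have hker : LinearMap.ker (Fintype.linearCombination ℚ (fun j => (y j : ℂ))) = ⊥ := by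
        rw [LinearMap.ker_eq_bot']
        intro c hc
        rw [Fintype.linearCombination_apply] at hc
        exact funext (Fintype.linearIndependent_iff.1 hyC c hc)
      obtain ⟨π, hπ⟩ := LinearMap.exists_leftInverse_of_injective _ hker
      refine ⟨π, fun i => ?_⟩
      have h := LinearMap.congr_fun hπ (Pi.single i 1)
      rw [LinearMap.comp_apply, Fintype.linearCombination_apply_single, one_smul,
        LinearMap.id_apply] at h
      exact h
    let M : Λ →ₗ[ℚ] Matrix (Fin (n + 1)) (Fin (n + 1)) ℚ :=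
      { toFun := fun l => Matrix.of fun i j => π (dd freeOn_Kalg (η j) (l : ℂ)) i
        map_add' := fun l l' => by
          ext i j
          simp
        map_smul' := fun q l => by
          ext i j
          simp }
    have hM : ∀ (l : Λ) i j, M l i j = π (dd freeOn_Kalg (η j) (l : ℂ)) i := fun _ _ _ => rfl
    refine ⟨M, ⟨⟨l₀, hl₀Λ⟩, ?_⟩, fun l hdet hsm => hdet ?_⟩
    · have h1 : M ⟨l₀, hl₀Λ⟩ = 1 := by
        ext i j
        rw [hM, hηy, hπ, Matrix.one_apply, Pi.single_apply]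
      rw [h1, Matrix.det_one]
      exact one_ne_zero
    · obtain ⟨V, hVK, hVfd, hVn, hV⟩ := hsm
      obtain ⟨c, hc0, hc⟩ := exists_rel freeOn_Kalg hVK (Nat.lt_succ_of_le hVn) η
      rw [← Matrix.exists_mulVec_eq_zero_iff]
      refine ⟨c, hc0, ?_⟩
      have h1 := hc _ hV
      ext i
      rw [Matrix.mulVec, dotProduct]
      have h2 := congrArg (fun z => π z i) h1
      simp only [map_sum, map_smul, map_zero, Pi.zero_apply, Finset.sum_apply, Pi.smul_apply,
        smul_eq_mul] at h2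
      rw [Pi.zero_apply, ← h2]
      exact Finset.sum_congr rfl fun j _ => by rw [hM, mul_comm]
  · push Not at hK
    obtain ⟨l₀, hl₀Λ, hl₀⟩ := hK
    set T : Submodule ℚ Λ :=
      ((clF (∅ ∪ expSet Kalg)).toSubalgebra.toSubmodule).comap Λ.subtype with hT
    have hl₀T : (⟨l₀, hl₀Λ⟩ : Λ) ∉ T := hl₀
    obtain ⟨φ, hφ1, hφ2⟩ := Submodule.exists_le_ker_of_notMem hl₀T
    have hdet : ∀ l : Λ, (φ.smulRight (1 : Matrix (Fin (n + 1)) (Fin (n + 1)) ℚ) l).det =
        φ l ^ (n + 1) := by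
      intro l
      rw [LinearMap.smulRight_apply, Matrix.det_smul, Matrix.det_one, mul_one, Fintype.card_fin]
    refine ⟨φ.smulRight 1, ⟨⟨l₀, hl₀Λ⟩, ?_⟩, fun l hl hsm => hl ?_⟩
    · rw [hdet]
      exact pow_ne_zero _ hφ1
    · obtain ⟨V, hVK, hVfd, hVn, hV⟩ := hsm
      have h1 : l ∈ T :=
        clF_mono (union_subset_union_right ∅ (image_mono hVK)) hV
      have h2 : φ l = 0 := hφ2 h1
      rw [hdet, h2, zero_pow (Nat.succ_ne_zero n)]

end Pool.Agent.Lib.MP_c82530_nt.UL
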