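import Pool.Agent.Lib.MP_c82530_nt.UL.Stm

/-!
# MP_c82530_nt, project UL: piece NL
-/

set_option autoImplicit false

open Polynomial IntermediateField

namespace Pool.Agent.Lib.MP_c82530_nt.UL

private lemma NL_poly {K : Type} [Field K] (f g : K[X]) (c : K) (hg : g ≠ 0)
    (h : X * (derivative f * g - f * derivative g) = C c * g ^ 2) : c = 0 := by
  classical
  set u := f / g with hu
  set e := f % g with he
  have hf : f = g * u + e := (EuclideanDomain.div_add_mod f g).symm
  have hdeg : e.degree < g.degree := Polynomial.degree_mod_lt f hg
  have hder : derivative f = derivative g * u + g * derivative u + derivative e := by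
    rw [hf, derivative_add, derivative_mul]
  have key : g ^ 2 * (C c - X * derivative u) = X * (derivative e * g - e * derivative g) := by
    have h1 : derivative f * g - f * derivative g =
        g ^ 2 * derivative u + (derivative e * g - e * derivative g) := by
      rw [hder]
      linear_combination (-(derivative g)) * hf
    rw [h1] at h
    linear_combination -h
  have hzero : C c - X * derivative u = 0 → c = 0 := by
    intro h0
    have := congrArg (fun p : K[X] => p.coeff 0) h0
    simpa using this
  by_cases he0 : e = 0
  · rw [he0] at key
    simp only [derivative_zero, zero_mul, sub_zero, mul_zero] at key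
    rcases mul_eq_zero.mp key with h2 | h2
    · exact absurd (pow_eq_zero_iff (by norm_num) |>.mp h2) hg
    · exact hzero h2
  · by_contra hc
    have hne : C c - X * derivative u ≠ 0 := fun h0 => hc (hzero h0)
    have hnat : e.natDegree < g.natDegree := natDegree_lt_natDegree he0 hdeg
    have hL : (g ^ 2 * (C c - X * derivative u)).natDegree =
        2 * g.natDegree + (C c - X * derivative u).natDegree := by
      rw [natDegree_mul (pow_ne_zero 2 hg) hne, natDegree_pow]
    have hR : (X * (derivative e * g - e * derivative g)).natDegree ≤
        1 + (e.natDegree + g.natDegree - 1) := by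
      refine natDegree_mul_le.trans ?_
      have h3 : (derivative e * g - e * derivative g).natDegree ≤
          e.natDegree + g.natDegree - 1 := by
        refine (natDegree_sub_le _ _).trans (max_le ?_ ?_)
        · by_cases hd : derivative e = 0
          · rw [hd, zero_mul, natDegree_zero]
            exact Nat.zero_le _
          · have hd1 : 0 < e.natDegree := by
              rcases Nat.eq_zero_or_pos e.natDegree with h5 | h5
              · exfalso
                apply hd
                rw [eq_C_of_natDegree_eq_zero h5, derivative_C]
              · exact h5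
            have h6 := natDegree_derivative_lt (p := e) (by omega)
            have h7 := natDegree_mul_le (p := derivative e) (q := g)
            omega
        · have h6 : (derivative g).natDegree < g.natDegree :=
            natDegree_derivative_lt (by omega)
          have h7 := natDegree_mul_le (p := e) (q := derivative g)
          omega
      have h8 : (X : K[X]).natDegree ≤ 1 := natDegree_X_le
      omega
    rw [key] at hL
    omega

theorem p_NL : NL := by
  intro K F _ _ _ _ D x l c hx0 hDx hl hDl
  have hDaev : ∀ p : K[X], D (aeval x p) = aeval x (derivative p) * x := by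
    intro p
    rw [D.map_aeval p x, hDx, smul_eq_mul]
  -- `x` is transcendental
  have htr : Transcendental K x := by
    intro halg
    have hirr := minpoly.irreducible halg.isIntegral
    have h1 := hDaev (minpoly K x)
    rw [minpoly.aeval, map_zero] at h1
    have h2 : aeval x (derivative (minpoly K x)) ≠ 0 :=
      hirr.separable.aeval_derivative_ne_zero (minpoly.aeval K x)
    exact (mul_ne_zero h2 hx0) h1.symm
  have hinj := transcendental_iff_injective.mp htr
  -- `D` maps `K(x)` into itself
  have hDL : ∀ y : F, y ∈ K⟮x⟯ → D y ∈ K⟮x⟯ := by
    intro y hy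
    obtain ⟨f, g, hfg⟩ := IntermediateField.mem_adjoin_simple_iff K y |>.mp hy
    by_cases hg : aeval x g = 0
    · rw [hg, div_zero] at hfg
      rw [hfg, map_zero]
      exact zero_mem _
    have hxm : x ∈ K⟮x⟯ := mem_adjoin_simple_self K x
    have haev : ∀ p : K[X], aeval x p ∈ K⟮x⟯ := fun p =>
      (IntermediateField.mem_adjoin_simple_iff K _).mpr ⟨p, 1, by simp⟩
    have h1 : D (y * aeval x g) = D (aeval x f) := by
      rw [hfg, div_mul_cancel₀ _ hg]
    rw [Derivation.leibniz, hDaev, hDaev, smul_eq_mul, smul_eq_mul] at h1
    have h2 : D y = (aeval x (derivative f) * x - y * (aeval x (derivative g) * x)) /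
        aeval x g := by
      rw [eq_div_iff hg]
      linear_combination h1
    rw [h2]
    exact div_mem (sub_mem (mul_mem (haev _) hxm) (mul_mem hy (mul_mem (haev _) hxm))) (haev _)
  -- reduction to an element of `K(x)`
  have hs : ∃ s : F, s ∈ K⟮x⟯ ∧ D s = algebraMap K F c := by
    set P := minpoly K⟮x⟯ l with hP
    have hlI : IsIntegral K⟮x⟯ l := hl.isIntegral
    have hmon : P.Monic := minpoly.monic hlI
    set m := P.natDegree with hm
    have hmpos : 0 < m := minpoly.natDegree_pos hlI
    let d : ℕ → K⟮x⟯ := fun i => ⟨D (P.coeff i : F), hDL _ (P.coeff i).2⟩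
    let Q : K⟮x⟯[X] := (∑ i ∈ Finset.range m, monomial i (d i)) +
      C (algebraMap K K⟮x⟯ c) * derivative P
    have hQ0 : aeval l Q = 0 := by
      have hsum : aeval l P = ∑ i ∈ Finset.range (m + 1), (P.coeff i : F) * l ^ i := by
        rw [aeval_eq_sum_range]
        rfl
      have h0 : D (aeval l P) = 0 := by rw [hP, minpoly.aeval, map_zero]
      rw [hsum, map_sum] at h0
      have hterm : ∀ i, D ((P.coeff i : F) * l ^ i) =
          D (P.coeff i : F) * l ^ i + (P.coeff i : F) * (i * l ^ (i - 1)) * algebraMap K F c := by
        intro i
        rw [Derivation.leibniz, Derivation.leibniz_pow, hDl]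
        simp only [smul_eq_mul, nsmul_eq_mul]
        ring
      simp only [hterm, Finset.sum_add_distrib] at h0
      have hlast : D (P.coeff m : F) = 0 := by
        have : P.coeff m = 1 := hmon
        rw [this]
        simp
      rw [Finset.sum_range_succ, hlast, zero_mul, add_zero] at h0
      have hder : aeval l (derivative P) =
          ∑ i ∈ Finset.range (m + 1), (P.coeff i : F) * (i * l ^ (i - 1)) := by
        have hd : derivative P = ∑ i ∈ Finset.range (m + 1),
            monomial (i - 1) (P.coeff i * (i : K⟮x⟯)) := by
          conv_lhs => rw [P.as_sum_range]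
          rw [derivative_sum]
          exact Finset.sum_congr rfl fun i _ => derivative_monomial _ _
        rw [hd, map_sum]
        apply Finset.sum_congr rfl
        intro i _
        rw [aeval_monomial, map_mul, map_natCast]
        change (P.coeff i : F) * (i : F) * l ^ (i - 1) = _
        ring
      rw [show aeval l Q = (∑ i ∈ Finset.range m, D (P.coeff i : F) * l ^ i) +
        algebraMap K F c * aeval l (derivative P) from ?_, hder, Finset.mul_sum]
      · rw [← h0]
        congr 1
        apply Finset.sum_congr rfl
        intro i _
        ring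
      · simp only [Q, map_add, map_sum, map_mul, aeval_monomial, aeval_C]
        rfl
    have hQdeg : Q.degree < P.degree := by
      have hPd : P.degree = (m : WithBot ℕ) := degree_eq_natDegree hmon.ne_zero
      refine (degree_add_le _ _).trans_lt (max_lt ?_ ?_)
      · refine (degree_sum_le _ _).trans_lt ?_
        rw [Finset.sup_lt_iff (by rw [hPd]; exact WithBot.bot_lt_coe m)]
        intro i hi
        refine (degree_monomial_le _ _).trans_lt ?_
        rw [hPd]
        exact_mod_cast Finset.mem_range.mp hi
      · refine lt_of_le_of_lt (b := (derivative P).degree) ?_ (degree_derivative_lt hmon.ne_zero)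
        refine (degree_mul_le _ _).trans ?_
        calc (C (algebraMap K K⟮x⟯ c)).degree + (derivative P).degree
            ≤ 0 + (derivative P).degree := add_le_add_left degree_C_le _
          _ = (derivative P).degree := zero_add _
    have hQ : Q = 0 := by
      by_contra hne
      have := minpoly.degree_le_of_ne_zero K⟮x⟯ l hne hQ0
      exact absurd hQdeg (not_lt.mpr this)
    have hco := congrArg (fun p : K⟮x⟯[X] => p.coeff (m - 1)) hQ
    have hm1 : m - 1 + 1 = m := Nat.sub_add_cancel hmpos
    have hcm : P.coeff m = 1 := hmon
    simp only [Q, coeff_add, finsetSum_coeff, coeff_monomial, coeff_C_mul, coeff_derivative,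
      coeff_zero, hm1, hcm, one_mul] at hco
    rw [Finset.sum_ite_eq' (Finset.range m) (m - 1) d, if_pos (Finset.mem_range.mpr (by omega))] at hco
    have hco2 := congrArg (fun y : K⟮x⟯ => (y : F)) hco
    have hcast : (((m - 1 : ℕ) : K⟮x⟯) + 1) = (m : K⟮x⟯) := by
      have : ((m - 1 + 1 : ℕ) : K⟮x⟯) = (m : K⟮x⟯) := by rw [hm1]
      rw [← this]
      push_cast
      ring
    have hco3 : D (P.coeff (m - 1) : F) + algebraMap K F c * (m : F) = 0 := by
      rw [hcast] at hco
      have h9 := congrArg (fun y : K⟮x⟯ => (y : F)) hco
      simpa [d] using h9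
    have hmF : (m : F) ≠ 0 := by
      have : CharZero F := charZero_of_injective_algebraMap (algebraMap K F).injective
      exact_mod_cast hmpos.ne'
    refine ⟨-(P.coeff (m - 1) : F) / (m : F), ?_, ?_⟩
    · exact div_mem (neg_mem (P.coeff (m - 1)).2) (_root_.natCast_mem _ m)
    · have h10 : D (-(P.coeff (m - 1) : F) / (m : F) * (m : F)) =
          D (-(P.coeff (m - 1) : F)) := by rw [div_mul_cancel₀ _ hmF]
      rw [Derivation.leibniz] at h10
      have h11 : D (m : F) = 0 := by
        simp
      rw [h11, smul_zero, zero_add, smul_eq_mul, map_neg] at h10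
      have h12 : (m : F) * D (-(P.coeff (m - 1) : F) / (m : F)) = (m : F) * algebraMap K F c := by
        rw [h10]
        linear_combination -hco3
      exact mul_left_cancel₀ hmF h12
  obtain ⟨s, hsm, hDs⟩ := hs
  obtain ⟨f, g, hfg⟩ := IntermediateField.mem_adjoin_simple_iff K s |>.mp hsm
  by_cases hgx : aeval x g = 0
  · rw [hgx, div_zero] at hfg
    rw [hfg, map_zero] at hDs
    exact (map_eq_zero (algebraMap K F)).mp hDs.symm
  have hg : g ≠ 0 := fun h => hgx (by rw [h, map_zero])
  apply NL_poly f g c hg
  apply hinj
  have h1 : D (s * aeval x g) = D (aeval x f) := by rw [hfg, div_mul_cancel₀ _ hgx]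
  rw [Derivation.leibniz, hDaev, hDaev, hDs, smul_eq_mul, smul_eq_mul] at h1
  have h2 : s * aeval x g = aeval x f := by rw [hfg, div_mul_cancel₀ _ hgx]
  simp only [map_mul, map_sub, map_pow, aeval_X, aeval_C]
  linear_combination (-(aeval x g)) * h1 + (aeval x (derivative g) * x) * h2

end Pool.Agent.Lib.MP_c82530_nt.UL
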