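import Pool.Agent.Lib.MP_c82530_nt.UL.Stm

set_option autoImplicit false

namespace Pool.Agent.Lib.MP_c82530_nt.UL

theorem p_GI : GI := by
  intro E _ _ m v w hv
  classical
  have hker : LinearMap.ker (Fintype.linearCombination ℚ v) = ⊥ := by
    rw [LinearMap.ker_eq_bot']
    intro c hc
    rw [Fintype.linearCombination_apply] at hc
    exact funext (Fintype.linearIndependent_iff.1 hv c hc)
  obtain ⟨π, hπ⟩ := LinearMap.exists_leftInverse_of_injective _ hker
  have hπv : ∀ i, π (v i) = Pi.single i 1 := by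
    intro i
    have h := LinearMap.congr_fun hπ (Pi.single i 1)
    rw [LinearMap.comp_apply, Fintype.linearCombination_apply_single, one_smul,
      LinearMap.id_apply] at h
    exact h
  let T : Module.End ℚ (Fin m → ℚ) := π.comp (Fintype.linearCombination ℚ w)
  have hTw : ∀ i, T (Pi.single i 1) = π (w i) := by
    intro i
    change π (Fintype.linearCombination ℚ w (Pi.single i 1)) = _
    rw [Fintype.linearCombination_apply_single, one_smul]
  have hfin : {μ : ℚ | T.HasEigenvalue μ}.Finite := Module.End.finite_hasEigenvalue T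
  have hfin2 : ((fun t : ℚ => -t) ⁻¹' {μ : ℚ | T.HasEigenvalue μ} ∪ {0}).Finite := by
    apply Set.Finite.union _ (Set.finite_singleton 0)
    exact hfin.preimage (neg_injective.injOn)
  obtain ⟨t, ht⟩ := hfin2.exists_notMem
  have ht0 : t ≠ 0 := fun h => ht (Or.inr h)
  have hte : ¬ T.HasEigenvalue (-t) := fun h => ht (Or.inl h)
  refine ⟨t, ht0, ?_⟩
  let S : (Fin m → ℚ) →ₗ[ℚ] (Fin m → ℚ) := T + t • LinearMap.id
  have hSa : ∀ c, S c = T c + t • c := fun c => rfl
  have hkerS : LinearMap.ker S = ⊥ := by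
    rw [LinearMap.ker_eq_bot']
    intro c hc
    by_contra hne
    apply hte
    apply Module.End.hasEigenvalue_of_hasEigenvector (x := c)
    rw [Module.End.hasEigenvector_iff, Module.End.mem_eigenspace_iff]
    refine ⟨?_, hne⟩
    have h1 : T c + t • c = 0 := hc
    rw [neg_smul]
    exact eq_neg_of_add_eq_zero_left h1
  have hli : LinearIndependent ℚ (S ∘ (Pi.basisFun ℚ (Fin m))) :=
    (Pi.basisFun ℚ (Fin m)).linearIndependent.map' _ hkerS
  have heq : (π ∘ fun i => t • v i + w i) = S ∘ (Pi.basisFun ℚ (Fin m)) := by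
    funext i
    simp only [Function.comp_apply, map_add, map_smul, hπv, hSa, Pi.basisFun_apply, hTw]
    exact add_comm _ _
  apply LinearIndependent.of_comp π
  rw [heq]
  exact hli

theorem p_RL : RL := by
  intro H E _ _ _ _ X₀ X m hfd hm hrank ξ hξ
  classical
  by_contra hcon
  push Not at hcon
  subst hm
  let b := Module.finBasis ℚ (LinearMap.range X₀)
  have hη : ∀ i, ∃ η : H, X₀ η = (b i : E) := fun i => (b i).2
  choose η hη using hη
  let u : Fin (Module.finrank ℚ (LinearMap.range X₀)) → E := fun i => (b i : E)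
  have hu : LinearIndependent ℚ u :=
    b.linearIndependent.map' (LinearMap.range X₀).subtype (Submodule.ker_subtype _)
  have hspan : X ξ ∉ Submodule.span ℚ (Set.range u) := by
    intro hmem
    have hle : Submodule.span ℚ (Set.range u) ≤ LinearMap.range X₀ := by
      rw [Submodule.span_le]
      rintro _ ⟨i, rfl⟩
      exact (b i).2
    obtain ⟨ζ, hζ⟩ := hle hmem
    exact hcon ζ hζ
  have hv : LinearIndependent ℚ (Fin.cons (X ξ) u : Fin (Module.finrank ℚ (LinearMap.range X₀) + 1) → E) :=
    linearIndependent_finCons.2 ⟨hu, hspan⟩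
  obtain ⟨t, ht0, hli⟩ := p_GI E _ (Fin.cons (X ξ) u) (Fin.cons 0 (fun i => X (η i))) hv
  have hmem : ∀ i : Fin (Module.finrank ℚ (LinearMap.range X₀) + 1),
      t • (Fin.cons (X ξ) u : Fin _ → E) i + (Fin.cons 0 (fun i => X (η i)) : Fin _ → E) i ∈
        LinearMap.range (t • X₀ + X) := by
    intro i
    refine Fin.cases ?_ (fun j => ?_) i
    · refine ⟨t • ξ, ?_⟩
      simp [hξ]
    · refine ⟨η j, ?_⟩
      simp [hη, u]
  have hli2 : LinearIndependent ℚ (fun i : Fin (Module.finrank ℚ (LinearMap.range X₀) + 1) =>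
      (⟨_, hmem i⟩ : LinearMap.range (t • X₀ + X))) := by
    apply LinearIndependent.of_comp (LinearMap.range (t • X₀ + X)).subtype
    exact hli
  have h1 := hli2.cardinal_le_rank
  have h2 := h1.trans (hrank t)
  rw [Cardinal.mk_fin] at h2
  have h3 : Module.finrank ℚ (LinearMap.range X₀) + 1 ≤ Module.finrank ℚ (LinearMap.range X₀) := by
    exact_mod_cast h2
  omega

end Pool.Agent.Lib.MP_c82530_nt.UL
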