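import Pool.Agent.Lib.MP_c82530_nt.UL.Dep
import Pool.Agent.Lib.MP_c82530_nt.UL.P_NL
import Pool.Agent.Lib.MP_c82530_nt.UL.P_RL

/-!
# MP_c82530_nt, project UL: one exponent space for a whole space of numbers
-/

set_option autoImplicit false

open Set

namespace Pool.Agent.Lib.MP_c82530_nt.UL

/-- `l` is algebraic over `ℚ(B, exp S)` for some space `S` of algebraic numbers, `dim S ≤ m` -/
def Small (B : Set ℂ) (m : ℕ) (l : ℂ) : Prop :=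
  ∃ S ≤ Kalg, FiniteDimensional ℚ S ∧ Module.finrank ℚ S ≤ m ∧ l ∈ clF (B ∪ expSet S)

lemma Small.mono {B : Set ℂ} {m m' : ℕ} (h : m ≤ m') {l : ℂ} (hl : Small B m l) :
    Small B m' l := by
  obtain ⟨S, h1, h2, h3, h4⟩ := hl
  exact ⟨S, h1, h2, h3.trans h, h4⟩

lemma range_XX_le {B : Set ℂ} {W W' : Submodule ℚ ℂ} (hW : FreeOn B W) (hW' : FreeOn B W')
    (hWW' : W ≤ W') {l : ℂ} (hl : l ∈ clF (B ∪ expSet W)) (hl' : l ∈ clF (B ∪ expSet W')) :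
    LinearMap.range (XX hW l hl) ≤ LinearMap.range (XX hW' l hl') := by
  rintro _ ⟨ξ, rfl⟩
  obtain ⟨g, hg⟩ := LinearMap.exists_extend ξ
  refine ⟨g.comp W'.subtype, ?_⟩
  rw [XX_apply, XX_apply]
  refine (dd_unique hW le_rfl ξ _ (fun b hb => dd_B hW' _ hb) ?_ hl).symm
  intro a _
  have h3 := dd_exp hW' (g.comp W'.subtype) ⟨(a : ℂ), hWW' a.2⟩
  have h4 : g (a : ℂ) = ξ a := LinearMap.congr_fun hg a
  have h5 : (g.comp W'.subtype) ⟨(a : ℂ), hWW' a.2⟩ = ξ a := h4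
  rw [h5] at h3
  exact h3

lemma XX_comb {B : Set ℂ} {W : Submodule ℚ ℂ} (hW : FreeOn B W) (t : ℚ) {l₀ l : ℂ}
    (hl₀ : l₀ ∈ clF (B ∪ expSet W)) (hl : l ∈ clF (B ∪ expSet W))
    (hlt : t • l₀ + l ∈ clF (B ∪ expSet W)) :
    t • XX hW l₀ hl₀ + XX hW l hl = XX hW (t • l₀ + l) hlt := by
  ext ξ
  rw [XX_apply, LinearMap.add_apply, LinearMap.smul_apply, XX_apply, XX_apply, map_add,
    Derivation.map_smul]

lemma smul_add_mem {s : Set ℂ} (t : ℚ) {l₀ l : ℂ} (hl₀ : l₀ ∈ clF s) (hl : l ∈ clF s) :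
    t • l₀ + l ∈ clF s :=
  add_mem ((clF s).toSubalgebra.toSubmodule.smul_mem t hl₀) hl

/-- the main step: the rank argument -/
theorem rel_step {B : Set ℂ} {m : ℕ} {W : Submodule ℚ ℂ} [FiniteDimensional ℚ W]
    (hW : FreeOn B W) {S₀ : Submodule ℚ ℂ} (hS₀W : S₀ ≤ W) {l₀ l : ℂ}
    (hS₀ : l₀ ∈ clF (B ∪ expSet S₀)) (hl₀W : l₀ ∈ clF (B ∪ expSet W))
    (hlW : l ∈ clF (B ∪ expSet W))
    (hr2 : Module.finrank ℚ (LinearMap.range (XX hW l₀ hl₀W)) = m)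
    (hrt : ∀ t : ℚ, Module.rank ℚ
      (LinearMap.range (t • XX hW l₀ hl₀W + XX hW l hlW)) ≤ m) :
    l ∈ clF (B ∪ expSet S₀) := by
  by_contra hlS₀
  have hfd : FiniteDimensional ℚ (LinearMap.range (XX hW l₀ hl₀W)) := inferInstance
  obtain ⟨ξ, hξ, hne⟩ := exists_dd_ne hW hS₀W hlW hlS₀
  have hξ0 : XX hW l₀ hl₀W ξ = 0 := by
    rw [XX_apply]
    exact dd_zero hW hS₀W ξ hξ hS₀
  obtain ⟨η, hη⟩ := p_RL (Module.Dual ℚ W) ℂ (XX hW l₀ hl₀W)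
    (XX hW l hlW) m hfd hr2 hrt ξ hξ0
  rw [XX_apply, XX_apply] at hη
  apply hne
  refine dd_dd (NLh := p_NL) hW ξ hlW ?_
  rw [← hη]
  exact dd_zero hW hS₀W ξ hξ (dd_stab hW hS₀W η hS₀)

/-- **Relative theorem.** -/
theorem rel {B : Set ℂ} {n : ℕ}
    (hF : ∀ W ≤ Kalg, FiniteDimensional ℚ W → Module.finrank ℚ W ≤ 3 * n → FreeOn B W)
    (Λ : Submodule ℚ ℂ) (hΛ : ∀ l ∈ Λ, Small B n l) :
    ∃ V ≤ Kalg, FiniteDimensional ℚ V ∧ Module.finrank ℚ V ≤ n ∧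
      ∀ l ∈ Λ, l ∈ clF (B ∪ expSet V) := by
  classical
  have hex : ∃ m, ∀ l ∈ Λ, Small B m l := ⟨n, hΛ⟩
  obtain ⟨m, hm, hmn, hmin⟩ : ∃ m, (∀ l ∈ Λ, Small B m l) ∧ m ≤ n ∧
      ∀ k < m, ¬ ∀ l ∈ Λ, Small B k l :=
    ⟨Nat.find hex, Nat.find_spec hex, Nat.find_min' hex hΛ, fun k hk => Nat.find_min hex hk⟩
  obtain ⟨l₀, hl₀Λ, hl₀⟩ : ∃ l₀ ∈ Λ, ∀ k < m, ¬ Small B k l₀ := by
    rcases Nat.eq_zero_or_pos m with h0 | hpos
    · exact ⟨0, Λ.zero_mem, fun k hk => absurd hk (by omega)⟩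
    · have h1 := hmin (m - 1) (by omega)
      push Not at h1
      obtain ⟨l₀, h2, h3⟩ := h1
      exact ⟨l₀, h2, fun k hk h4 => h3 (h4.mono (by omega))⟩
  obtain ⟨S₀, hS₀K, hS₀fd, hS₀m, hS₀⟩ := hm l₀ hl₀Λ
  refine ⟨S₀, hS₀K, hS₀fd, hS₀m.trans hmn, fun l hlΛ => ?_⟩
  obtain ⟨S, hSK, hSfd, hSm, hS⟩ := hm l hlΛ
  obtain ⟨W, hWK, hWfd, hWr, hS₀W, hSW⟩ : ∃ W ≤ Kalg, FiniteDimensional ℚ W ∧
      Module.finrank ℚ W ≤ 2 * m ∧ S₀ ≤ W ∧ S ≤ W := by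
    refine ⟨S₀ ⊔ S, sup_le hS₀K hSK, inferInstance, ?_, le_sup_left, le_sup_right⟩
    have := Submodule.finrank_add_le_finrank_add_finrank S₀ S
    omega
  have hW : FreeOn B W := hF _ hWK hWfd (by omega)
  have hl₀W : l₀ ∈ clF (B ∪ expSet W) :=
    clF_mono (union_subset_union_right B (image_mono hS₀W)) hS₀
  have hlW : l ∈ clF (B ∪ expSet W) :=
    clF_mono (union_subset_union_right B (image_mono hSW)) hS
  -- the rank of `X₀`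
  have hr2 : Module.finrank ℚ (LinearMap.range (XX hW l₀ hl₀W)) = m := by
    apply le_antisymm
    · exact Module.finrank_le_of_rank_le (rank_XX_le hW hS₀W hS₀m hS₀ hl₀W)
    · by_contra hcon
      push Not at hcon
      obtain ⟨V, hVW, hVr, hV⟩ := exists_space hW hl₀W
      exact hl₀ _ hcon ⟨V, hVW.trans hWK, Submodule.finiteDimensional_of_le hVW, hVr.le, hV⟩
  refine rel_step hW hS₀W hS₀ hl₀W hlW hr2 fun t => ?_
  obtain ⟨T, hTK, hTfd, hTm, hT⟩ := hm (t • l₀ + l) (Λ.add_mem (Λ.smul_mem t hl₀Λ) hlΛ)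
  obtain ⟨W', hW'K, hW'fd, hW'r, hWW', hTW'⟩ : ∃ W' ≤ Kalg, FiniteDimensional ℚ W' ∧
      Module.finrank ℚ W' ≤ 3 * m ∧ W ≤ W' ∧ T ≤ W' := by
    refine ⟨W ⊔ T, sup_le hWK hTK, inferInstance, ?_, le_sup_left, le_sup_right⟩
    have := Submodule.finrank_add_le_finrank_add_finrank W T
    omega
  have hW' : FreeOn B W' := hF _ hW'K hW'fd (by omega)
  have hltW' : t • l₀ + l ∈ clF (B ∪ expSet W') :=
    clF_mono (union_subset_union_right B (image_mono hTW')) hT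
  have hltW : t • l₀ + l ∈ clF (B ∪ expSet W) := smul_add_mem t hl₀W hlW
  rw [XX_comb hW t hl₀W hlW hltW]
  exact le_trans (Submodule.rank_mono (range_XX_le hW hW' hWW' hltW hltW'))
    (rank_XX_le hW' hTW' hTm hT hltW')

end Pool.Agent.Lib.MP_c82530_nt.UL
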